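import Mathlib

/-!
# Matrix units in a restricted enveloping algebra in characteristic three
-/

set_option autoImplicit false
set_option linter.unusedSimpArgs false

namespace Pool.Agent.Y651.PIU

section Ring

variable {U : Type} [Ring U] {E F H : U}

/-- The situation: a ring of characteristic three with elements `E, F, H` satisfying
the relations of the restricted enveloping algebra of `sl_2`. -/
structure Rel (E F H : U) : Prop where
  three : (3 : U) = 0
  hE : H * E = E * H - E
  hF : H * F = F * H + F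
  ef : E * F = F * E + H
  e3 : E * (E * E) = 0
  f3 : F * (F * F) = 0
  h3 : H * (H * H) = H

namespace Rel

variable (r : Rel E F H)
include r

theorem t3 (x : U) : (3 : ℤ) • x = 0 := by
  have := congrArg (· * x) r.three
  simp only [zero_mul] at this
  rw [← this]; noncomm_ring

theorem zz (n : ℤ) (h : n % 3 = 0) (x : U) : n • x = 0 := by
  obtain ⟨k, rfl⟩ := Int.dvd_of_emod_eq_zero h
  rw [mul_comm, mul_smul, r.t3, smul_zero]

theorem nn (n : ℕ) (h : n % 3 = 0) (x : U) : n • x = 0 := by
  have := r.zz n (by omega) x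
  rwa [natCast_zsmul] at this

theorem hE' (x : U) : H * (E * x) = E * (H * x) - E * x := by
  rw [← mul_assoc, r.hE, sub_mul, mul_assoc]
theorem hF' (x : U) : H * (F * x) = F * (H * x) + F * x := by
  rw [← mul_assoc, r.hF, add_mul, mul_assoc]
theorem ef' (x : U) : E * (F * x) = F * (E * x) + H * x := by
  rw [← mul_assoc, r.ef, add_mul, mul_assoc]
theorem e3' (x : U) : E * (E * (E * x)) = 0 := by
  have := congrArg (· * x) r.e3
  simpa [mul_assoc] using this
theorem f3' (x : U) : F * (F * (F * x)) = 0 := by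
  have := congrArg (· * x) r.f3
  simpa [mul_assoc] using this
theorem h3' (x : U) : H * (H * (H * x)) = H * x := by
  have := congrArg (· * x) r.h3
  simpa [mul_assoc] using this

theorem aa : ((E - F * (E * E)) * (H - H * H)) * ((E - F * (E * E)) * (H - H * H)) = 0 := by
  simp only [mul_sub, sub_mul, mul_add, add_mul, mul_assoc, r.hE, r.hF, r.ef, r.e3, r.f3, r.h3,
    r.hE', r.hF', r.ef', r.e3', r.f3', r.h3', mul_zero, zero_mul, sub_zero, zero_sub, add_zero, zero_add]
  abel_nf
  simp [r.zz, r.nn]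

theorem bb : (F * (-H - H * H)) * (F * (-H - H * H)) = 0 := by
  simp only [mul_sub, sub_mul, mul_add, add_mul, mul_neg, neg_mul, mul_assoc, r.hE, r.hF, r.ef, r.e3, r.f3, r.h3,
    r.hE', r.hF', r.ef', r.e3', r.f3', r.h3', mul_zero, zero_mul, sub_zero, zero_sub, add_zero, zero_add]
  abel_nf
  simp [r.zz, r.nn]

theorem ab : ((E - F * (E * E)) * (H - H * H)) * (F * (-H - H * H)) =
    (1 - F * (F * (E * E))) * (- H - H * H) := by
  rw [← sub_eq_zero]
  simp only [mul_sub, sub_mul, mul_add, add_mul, mul_neg, neg_mul, mul_assoc, r.hE, r.hF, r.ef, r.e3, r.f3, r.h3,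
    r.hE', r.hF', r.ef', r.e3', r.f3', r.h3', mul_zero, zero_mul, sub_zero, zero_sub, add_zero, zero_add, one_mul]
  abel_nf
  simp [r.zz, r.nn]

theorem aba : ((1 - F * (F * (E * E))) * (- H - H * H)) * ((E - F * (E * E)) * (H - H * H)) =
    (E - F * (E * E)) * (H - H * H) := by
  rw [← sub_eq_zero]
  simp only [mul_sub, sub_mul, mul_add, add_mul, mul_neg, neg_mul, mul_assoc, r.hE, r.hF, r.ef, r.e3, r.f3, r.h3,
    r.hE', r.hF', r.ef', r.e3', r.f3', r.h3', mul_zero, zero_mul, sub_zero, zero_sub, add_zero, zero_add, one_mul]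
  abel_nf
  simp [r.zz, r.nn]

theorem bab : (F * (-H - H * H)) * ((1 - F * (F * (E * E))) * (- H - H * H)) =
    F * (-H - H * H) := by
  rw [← sub_eq_zero]
  simp only [mul_sub, sub_mul, mul_add, add_mul, mul_neg, neg_mul, mul_assoc, r.hE, r.hF, r.ef, r.e3, r.f3, r.h3,
    r.hE', r.hF', r.ef', r.e3', r.f3', r.h3', mul_zero, zero_mul, sub_zero, zero_sub, add_zero, zero_add, one_mul, mul_one]
  abel_nf
  simp [r.zz, r.nn]

end Rel
end Ring
end Pool.Agent.Y651.PIU
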