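import Mathlib
import Pool.Agent.Y651.PIU

set_option autoImplicit false
set_option linter.unusedSimpArgs false

namespace Pool.Agent.Y651.PIU

abbrev K : Type := ZMod 3
abbrev L : Type := Matrix (Fin 2) (Fin 2) (ZMod 3)

section Phi
variable {U : Type} [Ring U] [Algebra K U] (a b : U)

/-- the map from two by two matrices given by a pair of matrix units -/
def phiFun (x : L) : U := x 0 0 • (a * b) + x 0 1 • a + x 1 0 • b + x 1 1 • (b * a)

variable {a b}

theorem phi_mul (haa : a * a = 0) (hbb : b * b = 0) (haba : a * b * a = a) (hbab : b * (a * b) = b)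
    (x y : L) : phiFun a b (x * y) = phiFun a b x * phiFun a b y := by
  have haa' : ∀ z, a * (a * z) = 0 := fun z => by rw [← mul_assoc, haa, zero_mul]
  have hbb' : ∀ z, b * (b * z) = 0 := fun z => by rw [← mul_assoc, hbb, zero_mul]
  have haba' : a * (b * a) = a := by rw [← mul_assoc, haba]
  have haba'' : ∀ z, a * (b * (a * z)) = a * z := fun z => by
    rw [← mul_assoc, ← mul_assoc, haba]
  have hbab'' : ∀ z, b * (a * (b * z)) = b * z := fun z => by
    conv_rhs => rw [← hbab]
    simp only [mul_assoc]
  simp only [phiFun, Matrix.mul_apply, Fin.sum_univ_two, mul_add, add_mul, smul_mul_assoc,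
    mul_smul_comm, mul_assoc, haa, hbb, haa', hbb', haba', haba'', hbab, hbab'', mul_zero, smul_zero,
    add_zero, zero_add, add_smul, mul_smul]
  module

/-- the map as a non-unital algebra homomorphism -/
def phi (haa : a * a = 0) (hbb : b * b = 0) (haba : a * b * a = a) (hbab : b * (a * b) = b) :
    L →ₙₐ[K] U where
  toFun := phiFun a b
  map_smul' c x := by
    simp only [phiFun, Matrix.smul_apply, smul_eq_mul, mul_smul, smul_add]
    rfl
  map_zero' := by simp [phiFun]
  map_add' x y := by
    simp only [phiFun, Matrix.add_apply, add_smul]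
    abel
  map_mul' := phi_mul haa hbb haba hbab

theorem phiFun_def (x : L) : phiFun a b x = x 0 0 • (a * b) + x 0 1 • a + x 1 0 • b + x 1 1 • (b * a) := rfl

end Phi

theorem natCast3 {U : Type} [Ring U] [Algebra K U] : (3 : U) = 0 := by
  have h : (3 : K) = 0 := by decide
  rw [← map_ofNat (algebraMap K U) 3, show (OfNat.ofNat 3 : K) = 0 from h, map_zero]

theorem nn3 {U : Type} [Ring U] [Algebra K U] (n : ℕ) (h : n % 3 = 0) (x : U) : n • x = 0 := by
  obtain ⟨k, rfl⟩ := Nat.dvd_of_mod_eq_zero h
  rw [nsmul_eq_mul]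
  push_cast
  rw [natCast3, zero_mul, zero_mul]

theorem zz3 {U : Type} [Ring U] [Algebra K U] (n : ℤ) (h : n % 3 = 0) (x : U) : n • x = 0 := by
  obtain ⟨k, rfl⟩ := Int.dvd_of_emod_eq_zero h
  rw [zsmul_eq_mul]
  push_cast
  rw [natCast3, zero_mul, zero_mul]

/-- The cube map of an associative algebra of characteristic three. -/
theorem ad_cube {A : Type} [Ring A] [Algebra K A] (x y : A) :
    x * (x * (x * y - y * x) - (x * y - y * x) * x) - (x * (x * y - y * x) - (x * y - y * x) * x) * x
      = x ^ 3 * y - y * x ^ 3 := by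
  rw [← sub_eq_zero]
  simp only [pow_succ, pow_zero, one_mul, mul_sub, sub_mul, mul_assoc]
  abel_nf
  simp [nn3, zz3, natCast3]

theorem cube_add {A : Type} [Ring A] [Algebra K A] (x y : A) :
    (x + y) ^ 3 - x ^ 3 - y ^ 3 =
      (x * (x * y - y * x) - (x * y - y * x) * x) + (y * (y * x - x * y) - (y * x - x * y) * y) := by
  rw [← sub_eq_zero]
  simp only [pow_succ, pow_zero, one_mul, mul_add, add_mul, mul_sub, sub_mul, mul_assoc]
  abel_nf
  simp [nn3, zz3, natCast3]

/-- the four matrix units -/
def mu (i : Fin 4) : L :=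
  match i with
  | 0 => !![1, 0; 0, 0]
  | 1 => !![0, 1; 0, 0]
  | 2 => !![0, 0; 1, 0]
  | 3 => !![0, 0; 0, 1]

theorem s4_mu : (∑ σ : Equiv.Perm (Fin 4), ((Equiv.Perm.sign σ : ℤˣ) : ℤ) •
    (List.ofFn fun i => mu (σ i)).prod) = 0 := by
  decide +kernel

/-- the matrix units as a basis -/
noncomputable def muBasis : Module.Basis (Fin 4) K L :=
  (Matrix.stdBasis K (Fin 2) (Fin 2)).reindex finProdFinEquiv

theorem muBasis_apply (i : Fin 4) : muBasis i = mu i := by
  fin_cases i <;> ext a b <;> fin_cases a <;> fin_cases b <;>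
    simp [muBasis, mu, Matrix.stdBasis_eq_single, finProdFinEquiv, Fin.divNat, Fin.modNat]

/-- Amitsur-Levitzki for two by two matrices. -/
theorem s4 (r : Fin 4 → L) :
    (∑ σ : Equiv.Perm (Fin 4), ((Equiv.Perm.sign σ : ℤˣ) : ℤ) • (List.ofFn fun i => r (σ i)).prod) = 0 := by
  have key : MultilinearMap.alternatization (MultilinearMap.mkPiAlgebraFin K 4 L) = 0 := by
    refine Module.Basis.ext_alternating muBasis fun v hv => ?_
    have hbij : Function.Bijective v := (Finite.injective_iff_bijective).1 hv
    let σ : Equiv.Perm (Fin 4) := Equiv.ofBijective v hbij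
    have h1 := AlternatingMap.map_perm (MultilinearMap.alternatization (MultilinearMap.mkPiAlgebraFin K 4 L))
      (fun i => muBasis i) σ
    have h2 : ((fun i => muBasis i) ∘ σ) = fun i => muBasis (v i) := rfl
    rw [h2] at h1
    rw [h1, AlternatingMap.zero_apply]
    have h3 : (MultilinearMap.alternatization (MultilinearMap.mkPiAlgebraFin K 4 L))
      (fun i => muBasis i) = 0 := by
      rw [MultilinearMap.alternatization_apply]
      simp only [muBasis_apply]
      have := s4_mu
      simpa [Units.smul_def] using this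
    rw [h3, smul_zero]
  have := congrArg (fun f => f r) key
  simp only [MultilinearMap.alternatization_apply, AlternatingMap.zero_apply] at this
  simpa [Units.smul_def] using this

end Pool.Agent.Y651.PIU
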