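import Mathlib
import Pool.Agent.Y651.PIU2

set_option autoImplicit false
set_option linter.unusedSimpArgs false

namespace Pool.Agent.Y651.PIU

open UniversalEnvelopingAlgebra

attribute [local instance 100] LieRing.ofAssociativeRing

/-- the cube map -/
def cube (x : L) : L := x ^ 3

/-- the relation defining the restricted enveloping algebra -/
abbrev rel (a b : UniversalEnvelopingAlgebra K L) : Prop := ∃ x : L, a = ι K x ^ 3 ∧ b = ι K (cube x)

/-- the restricted enveloping algebra of `gl_2` over the field with three elements -/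
abbrev UU : Type := RingQuot rel

theorem cube_smul (a : K) (x : L) : cube (a • x) = a ^ 3 • cube x := by
  simp [cube, smul_pow]

theorem ad_cube' (x y : L) : ((LieAlgebra.ad K L x) ^ 3) y = ⁅cube x, y⁆ := by
  have := ad_cube x y
  simp only [pow_succ, pow_zero, one_mul, Module.End.mul_apply, LieAlgebra.ad_apply, Ring.lie_def, cube] at this ⊢
  exact this

theorem cube_add' (x y : L) :
    ι K (cube (x + y)) - ι K (cube x) - ι K (cube y) = (ι K x + ι K y) ^ 3 - ι K x ^ 3 - ι K y ^ 3 := by
  rw [cube_add (ι K x) (ι K y)]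
  have h := cube_add x y
  have h2 : cube (x + y) - cube x - cube y = ⁅x, ⁅x, y⁆⁆ + ⁅y, ⁅y, x⁆⁆ := by
    simpa [cube, Ring.lie_def] using h
  have h3 := congrArg (ι K) h2
  rw [map_sub, map_sub, map_add, LieHom.map_lie, LieHom.map_lie, LieHom.map_lie, LieHom.map_lie] at h3
  rw [h3]
  simp only [Ring.lie_def]

/-- the canonical map -/
noncomputable def j (x : L) : UU := RingQuot.mkAlgHom K rel (ι K x)

theorem j_add (x y : L) : j (x + y) = j x + j y := by simp [j]
theorem j_sub (x y : L) : j (x - y) = j x - j y := by simp [j]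
theorem j_neg (x : L) : j (-x) = - j x := by simp [j]
theorem j_zero : j 0 = 0 := by simp [j]
theorem j_lie (x y : L) : j (x * y - y * x) = j x * j y - j y * j x := by
  have : j ⁅x, y⁆ = j x * j y - j y * j x := by
    unfold j
    rw [LieHom.map_lie, Ring.lie_def, map_sub, map_mul, map_mul]
  rwa [Ring.lie_def] at this
theorem j_cube (x : L) : j x ^ 3 = j (x ^ 3) := by
  unfold j
  rw [← map_pow]
  exact RingQuot.mkAlgHom_rel K (s := rel) ⟨x, rfl, rfl⟩

/-- the natural representation -/
noncomputable def rho : UU →ₐ[K] L :=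
  RingQuot.liftAlgHom K ⟨UniversalEnvelopingAlgebra.lift K (LieHom.id : L →ₗ⁅K⁆ L), by
    rintro a b ⟨x, rfl, rfl⟩
    rw [map_pow]
    simp [cube]⟩

theorem rho_j (x : L) : rho (j x) = x := by
  simp [rho, j]

theorem relUU : Rel (j (mu 1)) (j (mu 2)) (j (mu 0 - mu 3)) where
  three := natCast3
  hE := by
    have h := j_lie (mu 0 - mu 3) (mu 1)
    have e : (mu 0 - mu 3) * mu 1 - mu 1 * (mu 0 - mu 3) = - mu 1 := by decide
    rw [e, j_neg] at h
    rw [eq_sub_iff_add_eq, ← sub_eq_zero]
    rw [eq_comm, ← sub_eq_zero] at h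
    rw [← h]; abel
  hF := by
    have h := j_lie (mu 0 - mu 3) (mu 2)
    have e : (mu 0 - mu 3) * mu 2 - mu 2 * (mu 0 - mu 3) = mu 2 := by decide
    rw [e] at h
    exact sub_eq_iff_eq_add'.1 h.symm
  ef := by
    have h := j_lie (mu 1) (mu 2)
    have e : mu 1 * mu 2 - mu 2 * mu 1 = mu 0 - mu 3 := by decide
    rw [e] at h
    rw [h]; abel
  e3 := by
    have h := j_cube (mu 1)
    rw [show mu 1 ^ 3 = 0 by decide, j_zero] at h
    rw [← h]; noncomm_ring
  f3 := by
    have h := j_cube (mu 2)
    rw [show mu 2 ^ 3 = 0 by decide, j_zero] at h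
    rw [← h]; noncomm_ring
  h3 := by
    have h := j_cube (mu 0 - mu 3)
    rw [show (mu 0 - mu 3) ^ 3 = mu 0 - mu 3 by decide] at h
    have h' : ∀ x : UU, x * (x * x) = x ^ 3 := fun x => by noncomm_ring
    rw [h', h]

noncomputable def E : UU := j (mu 1)
noncomputable def F : UU := j (mu 2)
noncomputable def H : UU := j (mu 0 - mu 3)
noncomputable def a : UU := (E - F * (E * E)) * (H - H * H)
noncomputable def b : UU := F * (-H - H * H)

theorem relE : Rel E F H := relUU

/-- the embedding of matrices in the restricted enveloping algebra -/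
noncomputable def Phi : L →ₙₐ[K] UU := phi (a := a) (b := b) relE.aa relE.bb
  (by
    have h := relE.ab
    have h2 := relE.aba
    rw [← h] at h2
    exact h2)
  (by
    have h := relE.ab
    have h2 := relE.bab
    rw [← h] at h2
    exact h2)

theorem rho_a : rho a = mu 1 := by
  have e : rho a = (mu 1 - mu 2 * (mu 1 * mu 1)) * ((mu 0 - mu 3) - (mu 0 - mu 3) * (mu 0 - mu 3)) := by
    simp only [a, E, F, H, map_mul, map_sub, rho_j]
  rw [e]; decide

theorem rho_b : rho b = mu 2 := by
  have e : rho b = mu 2 * (-(mu 0 - mu 3) - (mu 0 - mu 3) * (mu 0 - mu 3)) := by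
    simp only [b, E, F, H, map_mul, map_sub, map_neg, rho_j]
  rw [e]; decide

theorem rho_Phi (x : L) : rho (Phi x) = x := by
  have : Phi x = x 0 0 • (a * b) + x 0 1 • a + x 1 0 • b + x 1 1 • (b * a) := rfl
  rw [this]
  simp only [map_add, map_smul, map_mul, rho_a, rho_b]
  ext i j
  fin_cases i <;> fin_cases j <;> simp [mu, Matrix.mul_apply, Fin.sum_univ_two]

theorem Phi_inj {x : L} (h : Phi x = 0) : x = 0 := by
  rw [← rho_Phi x, h, map_zero]

theorem pow26 (x : L) : x ^ 26 = x ^ 2 := by
  obtain ⟨p, q, r, s, rfl⟩ : ∃ p q r s, x = !![p, q; r, s] :=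
    ⟨x 0 0, x 0 1, x 1 0, x 1 1, by ext i j; fin_cases i <;> fin_cases j <;> rfl⟩
  revert p q r s
  decide +kernel

theorem Phi_pow (x : L) (n : ℕ) (hn : 1 ≤ n) : Phi (x ^ n) = Phi x ^ n := by
  induction n, hn using Nat.le_induction with
  | base => simp
  | succ n hn ih => rw [pow_succ, map_mul, ih, pow_succ]

end Pool.Agent.Y651.PIU
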